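import Mathlib
import Pool.Agent.K7.H68.MO.Defs

set_option autoImplicit false
set_option linter.unusedSectionVars false

/-!
# Monomials in the ring `D A`, degrees, and the projection to a degree
-/

open Finset

namespace Pool.Agent.K7.H78.MO

open Pool.Agent.K7.H68.MO

variable {α : Type} [DecidableEq α]

/-! ### Degrees -/

/-- total degree -/
def dg (e : Finset α →₀ ℕ) : ℕ := e.sum fun _ n => n

/-- the degree in the variables of the subsets of `S` -/
def E (e : Finset α →₀ ℕ) (S : Finset α) : ℕ := e.sum fun T n => if T ⊆ S then n else 0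

lemma dg_add (e f : Finset α →₀ ℕ) : dg (e + f) = dg e + dg f := by
  unfold dg
  exact Finsupp.sum_add_index' (fun _ => rfl) (fun _ _ _ => rfl)

lemma dg_single (S : Finset α) (n : ℕ) : dg (Finsupp.single S n) = n := by
  unfold dg
  exact Finsupp.sum_single_index rfl

lemma E_add (e f : Finset α →₀ ℕ) (S : Finset α) : E (e + f) S = E e S + E f S := by
  unfold E
  refine Finsupp.sum_add_index' (fun T => by simp) (fun T a b => ?_)
  split_ifs <;> rfl

lemma E_single (T S : Finset α) (n : ℕ) : E (Finsupp.single T n) S = if T ⊆ S then n else 0 := by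
  unfold E
  exact Finsupp.sum_single_index (by simp)

lemma E_le_dg (e : Finset α →₀ ℕ) (S : Finset α) : E e S ≤ dg e := by
  unfold E dg Finsupp.sum
  refine sum_le_sum fun T _ => ?_
  show (if T ⊆ S then e T else 0) ≤ e T
  split_ifs <;> omega

lemma E_eq (e : Finset α →₀ ℕ) (S : Finset α) : E e S = ∑ T ∈ S.powerset, e T := by
  unfold E Finsupp.sum
  rw [← sum_filter]
  have h : ∑ T ∈ S.powerset, e T = ∑ T ∈ S.powerset with T ∈ e.support, e T := by
    rw [sum_filter]
    refine sum_congr rfl fun T _ => ?_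
    split_ifs with h
    · rfl
    · exact Finsupp.notMem_support_iff.1 h
  rw [h]
  refine sum_congr ?_ fun _ _ => rfl
  ext T
  simp only [mem_filter, mem_powerset]
  tauto

lemma E_mono (e : Finset α →₀ ℕ) {S T : Finset α} (h : S ⊆ T) : E e S ≤ E e T := by
  rw [E_eq, E_eq]
  exact sum_le_sum_of_subset (powerset_mono.2 h)

lemma le_E (e : Finset α →₀ ℕ) {S T : Finset α} (h : T ⊆ S) : e T ≤ E e S := by
  rw [E_eq]
  exact single_le_sum (f := fun T => e T) (fun _ _ => Nat.zero_le _) (mem_powerset.2 h)

lemma dg_mapDomain (f : Finset α → Finset α) (e : Finset α →₀ ℕ) : dg (e.mapDomain f) = dg e := by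
  unfold dg
  exact Finsupp.sum_mapDomain_index (fun _ => rfl) (fun _ _ _ => rfl)

lemma E_mapDomain (f : Finset α → Finset α) (e : Finset α →₀ ℕ) (S : Finset α) :
    E (e.mapDomain f) S = e.sum fun T n => if f T ⊆ S then n else 0 := by
  unfold E
  rw [Finsupp.sum_mapDomain_index (fun T => by simp) (fun T a b => by split_ifs <;> rfl)]

/-! ### Monomials -/

lemma mon_zero (A : Finset α) : mon A 0 = 1 := by
  unfold mon
  rw [MvPolynomial.monomial_zero']
  simp

lemma mon_add (A : Finset α) (e f : Finset α →₀ ℕ) : mon A (e + f) = mon A e * mon A f := by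
  unfold mon
  rw [← map_mul, MvPolynomial.monomial_mul, one_mul]

lemma mon_single (A S : Finset α) (n : ℕ) : mon A (Finsupp.single S n) = x A S ^ n := by
  unfold mon x
  rw [← map_pow, MvPolynomial.X_pow_eq_monomial]

lemma mon_eq_prod (A : Finset α) (e : Finset α →₀ ℕ) : mon A e = e.prod fun S n => x A S ^ n := by
  unfold mon x
  rw [MvPolynomial.monomial_eq, map_mul]
  simp only [map_one, one_mul]
  rw [Finsupp.prod, Finsupp.prod, map_prod]
  simp only [map_pow]

lemma mon_mapDomain (A : Finset α) (f : Finset α → Finset α) (e : Finset α →₀ ℕ) :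
    mon A (e.mapDomain f) = e.prod fun S n => x A (f S) ^ n := by
  rw [mon_eq_prod, Finsupp.prod_mapDomain_index (fun _ => pow_zero _) (fun _ _ _ => pow_add _ _ _)]

lemma x_eq_zero {A S : Finset α} (h : ¬ S ⊆ A ∨ S.card < 2) : x A S = 0 := by
  unfold x
  rw [Ideal.Quotient.eq_zero_iff_mem]
  exact Ideal.subset_span (Or.inl (Or.inl ⟨S, h, rfl⟩))

lemma x_mul_eq_zero {A S T : Finset α} (h : Cross S T) : x A S * x A T = 0 := by
  unfold x
  rw [← map_mul, Ideal.Quotient.eq_zero_iff_mem]
  exact Ideal.subset_span (Or.inl (Or.inr ⟨S, T, h, rfl⟩))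

lemma mon_eq_mul {A : Finset α} {e : Finset α →₀ ℕ} {S : Finset α} (h : e S ≠ 0) :
    mon A e = x A S * mon A (e - Finsupp.single S 1) := by
  have h1 : e = Finsupp.single S 1 + (e - Finsupp.single S 1) := by
    rw [add_tsub_cancel_of_le]
    rw [Finsupp.single_le_iff]
    omega
  conv_lhs => rw [h1]
  rw [mon_add, mon_single, pow_one]

lemma mon_eq_zero {A : Finset α} {e : Finset α →₀ ℕ} {S : Finset α} (h : e S ≠ 0)
    (hS : ¬ S ⊆ A ∨ S.card < 2) : mon A e = 0 := by
  rw [mon_eq_mul h, x_eq_zero hS, zero_mul]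

lemma mon_eq_zero' {A : Finset α} {e : Finset α →₀ ℕ} {S T : Finset α} (h : e S ≠ 0) (h' : e T ≠ 0)
    (hST : Cross S T) : mon A e = 0 := by
  have hne : S ≠ T := by
    rintro rfl
    exact hST.1 (Subset.refl _)
  rw [mon_eq_mul h, mon_eq_mul (S := T), ← mul_assoc, x_mul_eq_zero hST, zero_mul]
  rw [Finsupp.tsub_apply, Finsupp.single_eq_of_ne' hne, Nat.sub_zero]
  exact h'

/-! ### The projection to a degree -/

/-- the ring homomorphism `x S ↦ x S X` -/
noncomputable def phi (A : Finset α) : D A →ₐ[ℚ] Polynomial (D A) :=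
  Ideal.Quotient.liftₐ (Ideal.span (relD A))
    (MvPolynomial.aeval fun S => Polynomial.C (x A S) * Polynomial.X) (by
      intro p hp
      have h : Ideal.span (relD A) ≤ RingHom.ker
          (MvPolynomial.aeval (R := ℚ) fun S => Polynomial.C (x A S) * Polynomial.X) := by
        rw [Ideal.span_le]
        rintro q ((⟨S, hS, rfl⟩ | ⟨S, T, hST, rfl⟩) | ⟨i, hi, j, hj, hij, rfl⟩)
        · show _ = _
          rw [MvPolynomial.aeval_X, x_eq_zero hS]
          simp
        · show _ = _
          rw [map_mul, MvPolynomial.aeval_X, MvPolynomial.aeval_X]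
          have : Polynomial.C (x A S) * Polynomial.X * (Polynomial.C (x A T) * Polynomial.X) =
              Polynomial.C (x A S * x A T) * Polynomial.X ^ 2 := by
            rw [Polynomial.C_mul]
            ring
          rw [this, x_mul_eq_zero hST]
          simp
        · show _ = _
          rw [map_sum]
          simp only [MvPolynomial.aeval_X]
          rw [← sum_mul, ← map_sum]
          have : ∑ S ∈ A.powerset with i ∈ S ∧ j ∈ S, x A S = 0 := by
            unfold x
            rw [← map_sum, Ideal.Quotient.eq_zero_iff_mem]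
            exact Ideal.subset_span (Or.inr ⟨i, hi, j, hj, hij, rfl⟩)
          rw [this]
          simp
      exact h hp)

lemma phi_mon (A : Finset α) (e : Finset α →₀ ℕ) :
    phi A (mon A e) = Polynomial.C (mon A e) * Polynomial.X ^ dg e := by
  have h1 : phi A (mon A e) =
      MvPolynomial.aeval (R := ℚ) (fun S => Polynomial.C (x A S) * Polynomial.X)
        (MvPolynomial.monomial e (1 : ℚ)) := by
    unfold phi mon
    exact Ideal.Quotient.liftₐ_apply _ _ _ _
  rw [h1, MvPolynomial.aeval_monomial, map_one, one_mul, mon_eq_prod]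
  have h2 : (Polynomial.X : Polynomial (D A)) ^ dg e = ∏ S ∈ e.support, Polynomial.X ^ e S := by
    have h3 : dg e = ∑ S ∈ e.support, e S := rfl
    rw [h3, Finset.prod_pow_eq_pow_sum]
  rw [h2, Finsupp.prod, Finsupp.prod, map_prod, ← prod_mul_distrib]
  refine prod_congr rfl fun S _ => ?_
  rw [map_pow]
  exact ((Commute.all (Polynomial.C (x A S)) Polynomial.X).mul_pow _)

/-- the projection to the degree `k` -/
noncomputable def proj (A : Finset α) (k : ℕ) : D A →ₗ[ℚ] D A :=
  ((Polynomial.lcoeff (D A) k).restrictScalars ℚ) ∘ₗ (phi A).toLinearMap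

lemma proj_mon (A : Finset α) (k : ℕ) (e : Finset α →₀ ℕ) :
    proj A k (mon A e) = if dg e = k then mon A e else 0 := by
  have : proj A k (mon A e) = (phi A (mon A e)).coeff k := rfl
  rw [this, phi_mon, Polynomial.coeff_C_mul, Polynomial.coeff_X_pow]
  simp only [eq_comm]
  split_ifs <;> simp

/-- the evaluation at `0` -/
noncomputable def ev0 (A : Finset α) : D A →ₐ[ℚ] ℚ :=
  Ideal.Quotient.liftₐ (Ideal.span (relD A)) (MvPolynomial.aeval fun _ => (0 : ℚ)) (by
      intro p hp
      have h : Ideal.span (relD A) ≤ RingHom.ker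
          (MvPolynomial.aeval (R := ℚ) fun _ : Finset α => (0 : ℚ)) := by
        rw [Ideal.span_le]
        rintro q ((⟨S, hS, rfl⟩ | ⟨S, T, hST, rfl⟩) | ⟨i, hi, j, hj, hij, rfl⟩)
        · show _ = _
          simp
        · show _ = _
          simp
        · show _ = _
          simp
      exact h hp)

lemma ev0_mon (A : Finset α) {e : Finset α →₀ ℕ} (h : dg e ≠ 0) : ev0 A (mon A e) = 0 := by
  have h1 : ev0 A (mon A e) =
      MvPolynomial.aeval (R := ℚ) (fun _ : Finset α => (0 : ℚ)) (MvPolynomial.monomial e (1 : ℚ)) := by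
    unfold ev0 mon
    exact Ideal.Quotient.liftₐ_apply _ _ _ _
  rw [h1, MvPolynomial.aeval_monomial, map_one, one_mul, Finsupp.prod]
  have : ∃ S, e S ≠ 0 := by
    by_contra hcon
    push Not at hcon
    apply h
    have : e = 0 := Finsupp.ext hcon
    rw [this]
    rfl
  obtain ⟨S, hS⟩ := this
  exact prod_eq_zero (Finsupp.mem_support_iff.2 hS) (zero_pow hS)

end Pool.Agent.K7.H78.MO
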