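import Mathlib
import Pool.Agent.K7.H78.MO.Base

set_option autoImplicit false
set_option linter.unusedSectionVars false

/-!
# Nested families of sets
-/

open Finset

namespace Pool.Agent.K7.H78.MO

open Pool.Agent.K7.H68.MO

variable {α : Type} [DecidableEq α]

/-- a nested family of nonempty sets -/
structure Lam (N : Finset (Finset α)) : Prop where
  nc : ∀ S ∈ N, ∀ T ∈ N, ¬ Cross S T
  ne : ∀ S ∈ N, S.Nonempty

lemma mem_kids {N : Finset (Finset α)} {v w : Finset α} :
    w ∈ kids N v ↔ w ∈ N ∧ w ⊂ v ∧ ∀ u ∈ N, u ⊂ v → ¬ w ⊂ u := by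
  unfold kids
  rw [mem_filter]

lemma kids_disj {N : Finset (Finset α)} (h : Lam N) {v w w' : Finset α} (hw : w ∈ kids N v)
    (hw' : w' ∈ kids N v) (hne : w ≠ w') : Disjoint w w' := by
  rw [mem_kids] at hw hw'
  by_contra hcon
  have h1 := h.nc w hw.1 w' hw'.1
  unfold Cross at h1
  by_cases h2 : w ⊆ w'
  · exact hw.2.2 w' hw'.1 hw'.2.1 (Finset.ssubset_iff_subset_ne.2 ⟨h2, hne⟩)
  · by_cases h3 : w' ⊆ w
    · exact hw'.2.2 w hw.1 hw.2.1 (Finset.ssubset_iff_subset_ne.2 ⟨h3, hne.symm⟩)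
    · exact h1 ⟨h2, h3, hcon⟩

lemma exists_kid {N : Finset (Finset α)} {u v : Finset α} (hu : u ∈ N) (huv : u ⊂ v) :
    ∃ w ∈ kids N v, u ⊆ w := by
  obtain ⟨w, hw, hmax⟩ := exists_max_image {t ∈ N | u ⊆ t ∧ t ⊂ v} card
    ⟨u, mem_filter.2 ⟨hu, Subset.refl _, huv⟩⟩
  rw [mem_filter] at hw
  refine ⟨w, mem_kids.2 ⟨hw.1, hw.2.2, fun t ht htv hwt => ?_⟩, hw.2.1⟩
  have h1 := hmax t (mem_filter.2 ⟨ht, hw.2.1.trans hwt.1, htv⟩)
  have h2 := card_lt_card hwt
  omega

lemma ssubset_eq_biUnion (N : Finset (Finset α)) (v : Finset α) :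
    {u ∈ N | u ⊂ v} = (kids N v).biUnion fun w => {u ∈ N | u ⊆ w} := by
  ext u
  simp only [mem_filter, mem_biUnion]
  constructor
  · rintro ⟨hu, huv⟩
    obtain ⟨w, hw, huw⟩ := exists_kid hu huv
    exact ⟨w, hw, hu, huw⟩
  · rintro ⟨w, hw, hu, huw⟩
    exact ⟨hu, lt_of_le_of_lt huw (mem_kids.1 hw).2.1⟩

lemma pairwise_kids {N : Finset (Finset α)} (h : Lam N) (v : Finset α) :
    ((kids N v : Finset (Finset α)) : Set (Finset α)).PairwiseDisjoint
      fun w => ({u ∈ N | u ⊆ w} : Finset (Finset α)) := by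
  intro w hw w' hw' hne
  rw [Function.onFun, disjoint_left]
  intro u hu hu'
  rw [mem_filter] at hu hu'
  obtain ⟨a, ha⟩ := h.ne u hu.1
  exact (disjoint_left.1 (kids_disj h hw hw' hne)) (hu.2 ha) (hu'.2 ha)

lemma sum_kids {M : Type*} [AddCommMonoid M] {N : Finset (Finset α)} (h : Lam N) (v : Finset α)
    (f : Finset α → M) :
    ∑ u ∈ N with u ⊂ v, f u = ∑ w ∈ kids N v, ∑ u ∈ N with u ⊆ w, f u := by
  rw [ssubset_eq_biUnion, sum_biUnion (pairwise_kids h v)]

lemma card_kids {N : Finset (Finset α)} (h : Lam N) (v : Finset α) :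
    v.card = ∑ w ∈ kids N v, w.card + #{a ∈ v | ∀ w ∈ kids N v, a ∉ w} := by
  have h1 : v = (kids N v).biUnion id ∪ {a ∈ v | ∀ w ∈ kids N v, a ∉ w} := by
    ext a
    simp only [mem_union, mem_biUnion, id, mem_filter]
    constructor
    · intro ha
      by_cases h2 : ∃ w ∈ kids N v, a ∈ w
      · exact Or.inl h2
      · push Not at h2
        exact Or.inr ⟨ha, h2⟩
    · rintro (⟨w, hw, haw⟩ | h2)
      · exact (mem_kids.1 hw).2.1.1 haw
      · exact h2.1
  conv_lhs => rw [h1]
  rw [card_union_of_disjoint, card_biUnion]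
  · rfl
  · intro w hw w' hw' hne
    exact kids_disj h hw hw' hne
  · rw [disjoint_left]
    intro a ha ha'
    rw [mem_biUnion] at ha
    rw [mem_filter] at ha'
    obtain ⟨w, hw, haw⟩ := ha
    exact ha'.2 w hw haw

lemma cnt_le {N : Finset (Finset α)} (h : Lam N) (v : Finset α) : cnt N v ≤ v.card := by
  rw [card_kids h v]
  unfold cnt
  have : #(kids N v) ≤ ∑ w ∈ kids N v, w.card := by
    rw [card_eq_sum_ones]
    exact sum_le_sum fun w hw => card_pos.2 (h.ne w (mem_kids.1 hw).1)
  omega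

lemma two_le_cnt (N : Finset (Finset α)) {v : Finset α} (hv : 2 ≤ v.card) : 2 ≤ cnt N v := by
  unfold cnt
  rcases (kids N v).eq_empty_or_nonempty with h0 | ⟨w, hw⟩
  · rw [h0]
    have : {a ∈ v | ∀ w ∈ (∅ : Finset (Finset α)), a ∉ w} = v := by
      rw [filter_eq_self]
      intro a _ w hw
      simp at hw
    rw [this]
    omega
  · by_contra hcon
    have h1 : 1 ≤ #(kids N v) := card_pos.2 ⟨w, hw⟩
    have h2 : #(kids N v) = 1 := by omega
    have h3 : #{a ∈ v | ∀ w ∈ kids N v, a ∉ w} = 0 := by omega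
    rw [card_eq_zero] at h3
    obtain ⟨a, ha, haw⟩ := exists_of_ssubset (mem_kids.1 hw).2.1
    have h4 : a ∈ {a ∈ v | ∀ w ∈ kids N v, a ∉ w} := by
      rw [mem_filter]
      refine ⟨ha, fun w' hw' => ?_⟩
      rw [card_eq_one] at h2
      obtain ⟨t, ht⟩ := h2
      rw [ht, mem_singleton] at hw hw'
      rw [hw', ← hw]
      exact haw
    rw [h3] at h4
    simp at h4

/-- the total of the numbers of children minus one -/
lemma tot {N : Finset (Finset α)} (h : Lam N) : ∀ n : ℕ, ∀ v : Finset α, v.card = n →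
    (∑ u ∈ N with u ⊂ v, ((cnt N u : ℤ) - 1)) + cnt N v = v.card := by
  intro n
  induction n using Nat.strong_induction_on with
  | _ n ih =>
    intro v hv
    rw [sum_kids h]
    have h1 : ∀ w ∈ kids N v, ∑ u ∈ N with u ⊆ w, ((cnt N u : ℤ) - 1) = (w.card : ℤ) - 1 := by
      intro w hw
      have hw' := mem_kids.1 hw
      have h2 := ih w.card (by rw [← hv]; exact card_lt_card hw'.2.1) w rfl
      have h3 : {u ∈ N | u ⊆ w} = insert w {u ∈ N | u ⊂ w} := by
        ext u
        simp only [mem_filter, mem_insert]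
        constructor
        · rintro ⟨hu, huw⟩
          rcases eq_or_ne u w with h4 | h4
          · exact Or.inl h4
          · exact Or.inr ⟨hu, Finset.ssubset_iff_subset_ne.2 ⟨huw, h4⟩⟩
        · rintro (rfl | ⟨hu, huw⟩)
          · exact ⟨hw'.1, Subset.refl _⟩
          · exact ⟨hu, huw.1⟩
      rw [h3, sum_insert (by simp), ← h2]
      ring
    rw [sum_congr rfl h1, card_kids h v, sum_sub_distrib]
    unfold cnt
    push_cast
    simp only [sum_const, nsmul_eq_mul, mul_one]
    ring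

lemma tot' {N : Finset (Finset α)} (h : Lam N) {v : Finset α} (hv : v ∈ N) :
    ∑ u ∈ N with u ⊆ v, ((cnt N u : ℤ) - 1) = (v.card : ℤ) - 1 := by
  have h2 := tot h v.card v rfl
  have h3 : {u ∈ N | u ⊆ v} = insert v {u ∈ N | u ⊂ v} := by
    ext u
    simp only [mem_filter, mem_insert]
    constructor
    · rintro ⟨hu, huw⟩
      rcases eq_or_ne u v with h4 | h4
      · exact Or.inl h4
      · exact Or.inr ⟨hu, Finset.ssubset_iff_subset_ne.2 ⟨huw, h4⟩⟩
    · rintro (rfl | ⟨hu, huw⟩)
      · exact ⟨hv, Subset.refl _⟩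
      · exact ⟨hu, huw.1⟩
  rw [h3, sum_insert (by simp), ← h2]
  ring

/-! ### Normal exponents -/

lemma Normal.lam' {A : Finset α} {e : Finset α →₀ ℕ} (h : Normal A e) : Lam e.support where
  nc := h.lam
  ne := by
    intro S hS
    have h1 := h.le S hS
    by_contra hcon
    rw [not_nonempty_iff_eq_empty] at hcon
    subst hcon
    have h2 : cnt e.support ∅ = 0 := by
      unfold cnt
      have : kids e.support ∅ = ∅ := by
        rw [eq_empty_iff_forall_notMem]
        intro w hw
        exact absurd (mem_kids.1 hw).2.1 (not_ssubset_empty w)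
      rw [this]
      simp
    omega

lemma Normal.three_le {A : Finset α} {e : Finset α →₀ ℕ} (h : Normal A e) {S : Finset α}
    (hS : S ∈ e.support) : 3 ≤ S.card := by
  have h1 := h.le S hS
  have h2 := cnt_le (Normal.lam' h) S
  have h3 := Finsupp.mem_support_iff.1 hS
  omega

/-- The degree of a normal monomial is at most `|A| - 2`, with equality only for the power of `x_A`. -/
lemma Normal.dg_le {A : Finset α} {e : Finset α →₀ ℕ} (h : Normal A e) (hA : 2 ≤ A.card) :
    dg e + 2 ≤ A.card ∧ (dg e + 2 = A.card → e = Finsupp.single A (A.card - 2)) := by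
  have hL := Normal.lam' h
  have h0 : (dg e : ℤ) ≤ ∑ u ∈ e.support, ((cnt e.support u : ℤ) - 1) - e.support.card := by
    have h1 : (e.support.card : ℤ) = ∑ u ∈ e.support, (1 : ℤ) := by simp
    rw [h1, ← sum_sub_distrib]
    unfold dg Finsupp.sum
    push_cast
    refine sum_le_sum fun u hu => ?_
    have := h.le u hu
    omega
  by_cases hAN : A ∈ e.support
  · have h1 := tot' hL hAN
    have h2 : {u ∈ e.support | u ⊆ A} = e.support := by
      rw [filter_eq_self]
      exact h.sub
    rw [h2] at h1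
    rw [h1] at h0
    have h3 : 1 ≤ e.support.card := card_pos.2 ⟨A, hAN⟩
    refine ⟨by omega, fun h4 => ?_⟩
    have h5 : e.support.card = 1 := by omega
    rw [card_eq_one] at h5
    obtain ⟨B, hB⟩ := h5
    rw [hB, mem_singleton] at hAN
    subst hAN
    have h6 : e = Finsupp.single A (e A) := by
      rw [← Finsupp.support_subset_singleton, hB]
    have h7 : dg e = e A := by
      conv_lhs => rw [h6]
      rw [dg_single]
    have h8 : e A = A.card - 2 := by omega
    rw [← h8]
    exact h6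
  · have h1 := tot hL A.card A rfl
    have h2 : {u ∈ e.support | u ⊂ A} = e.support := by
      rw [filter_eq_self]
      intro u hu
      refine Finset.ssubset_iff_subset_ne.2 ⟨h.sub u hu, ?_⟩
      rintro rfl
      exact hAN hu
    rw [h2] at h1
    have h3 := two_le_cnt e.support hA
    refine ⟨by omega, fun h4 => ?_⟩
    have h5 : e.support.card = 0 := by omega
    rw [card_eq_zero, Finsupp.support_eq_empty] at h5
    subst h5
    have h6 : dg (0 : Finset α →₀ ℕ) = 0 := rfl
    have h7 : A.card - 2 = 0 := by omega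
    rw [h7, Finsupp.single_zero]

end Pool.Agent.K7.H78.MO
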