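import Mathlib
import Pool.Agent.K7.H78.MO.Lam

set_option autoImplicit false
set_option linter.unusedSectionVars false

/-!
# The degree functional on `D A`
-/

open Finset

namespace Pool.Agent.K7.H78.MO

open Pool.Agent.K7.H68.MO

variable {α : Type} [DecidableEq α]

/-- the normalised functionals on the top degree -/
structure IsDeg (A : Finset α) (φ : D A →ₗ[ℚ] ℚ) : Prop where
  zero : ∀ e, dg e + 2 ≠ A.card → φ (mon A e) = 0
  one : φ (x A A ^ (A.card - 2)) = 1

lemma IsDeg.unique (J1 : Job1) {A : Finset α} (hA : 2 ≤ A.card) {φ ψ : D A →ₗ[ℚ] ℚ} (hφ : IsDeg A φ)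
    (hψ : IsDeg A ψ) : φ = ψ := by
  refine LinearMap.ext_on (J1 α A) ?_
  rintro y ⟨e, he, rfl⟩
  by_cases h : dg e + 2 = A.card
  · have h1 := (Normal.dg_le he hA).2 h
    rw [h1, mon_single, hφ.one, hψ.one]
  · rw [hφ.zero e h, hψ.zero e h]

lemma H_self (A : Finset α) : H A A = 0 := by
  unfold H
  refine sum_eq_zero fun U hU => ?_
  rw [mem_filter, mem_powerset] at hU
  exact absurd hU.1 hU.2.2

lemma K_self {A : Finset α} (hA : 2 ≤ A.card) (a : ℕ) : K A A (a + 1) = - x A A ^ a := by
  cases a with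
  | zero =>
    have h : K A A 1 = if A.card = 1 then 1 else if A = A then -1 else 0 := rfl
    rw [zero_add, h, if_neg (by omega), if_pos rfl, pow_zero]
  | succ a =>
    have h : K A A (a + 2) = - H A A * K A A (a + 1) - (if A.card = 1 then 0 else x A A ^ (a + 1)) :=
      rfl
    rw [show a + 1 + 1 = a + 2 from rfl, h, H_self, if_neg (by omega)]
    simp

/-- the functional obtained from the push-forward -/
lemma isDeg_step {A : Finset α} {z : α} (hz : z ∈ A) (hA : 3 ≤ A.card)
    {π : D A →ₗ[ℚ] D (A.erase z)} (hπ : ∀ (e : Finset α →₀ ℕ) (B : Finset α), B ∈ e.support → z ∈ B →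
      B ⊆ A → 2 ≤ B.card → (∀ S ∈ e.support, S ⊆ A ∧ (B ⊆ S ∨ Disjoint B S)) →
      π (mon A e) = K (A.erase z) (B.erase z) (e B) *
        ∏ S ∈ e.support.erase B, x (A.erase z) (S.erase z) ^ e S)
    {ψ : D (A.erase z) →ₗ[ℚ] ℚ} (hψ : IsDeg (A.erase z) ψ) :
    IsDeg A (- (ψ ∘ₗ π ∘ₗ proj A (A.card - 2))) where
  zero := by
    intro e he
    have h : dg e ≠ A.card - 2 := by omega
    simp only [LinearMap.neg_apply, LinearMap.comp_apply]
    rw [proj_mon, if_neg h, map_zero, map_zero, neg_zero]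
  one := by
    have hc : (A.erase z).card = A.card - 1 := card_erase_of_mem hz
    simp only [LinearMap.neg_apply, LinearMap.comp_apply]
    rw [← mon_single, proj_mon, dg_single, if_pos rfl]
    have hs : (Finsupp.single A (A.card - 2)).support = {A} :=
      Finsupp.support_single _ (by omega)
    rw [hπ (Finsupp.single A (A.card - 2)) A (by rw [hs]; simp) hz (Subset.refl _) (by omega) (by
      intro S hS
      rw [hs, mem_singleton] at hS
      subst hS
      exact ⟨Subset.refl _, Or.inl (Subset.refl _)⟩)]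
    rw [hs, Finsupp.single_eq_same]
    have h1 : ({A} : Finset (Finset α)).erase A = ∅ := by simp
    rw [h1, prod_empty, mul_one]
    have h2 : A.card - 2 = (A.card - 3) + 1 := by omega
    rw [h2, K_self (by omega)]
    have h3 : A.card - 3 = (A.erase z).card - 2 := by omega
    rw [h3, map_neg, hψ.one, neg_neg]

theorem exists_deg (J2 : Job2) : ∀ n : ℕ, ∀ A : Finset α, A.card = n → 2 ≤ A.card →
    ∃ φ : D A →ₗ[ℚ] ℚ, IsDeg A φ := by
  intro n
  induction n with
  | zero =>
    intro A hA h2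
    omega
  | succ n ih =>
    intro A hA h2
    by_cases h : A.card = 2
    · refine ⟨(ev0 A).toLinearMap, ⟨fun e he => ev0_mon A (by omega), ?_⟩⟩
      rw [h]
      simp
    · have h3 : 3 ≤ A.card := by omega
      obtain ⟨z, hz⟩ : A.Nonempty := card_pos.1 (by omega)
      have hc : (A.erase z).card = A.card - 1 := card_erase_of_mem hz
      obtain ⟨π, hπ⟩ := J2 α A z hz h3
      obtain ⟨ψ, hψ⟩ := ih (A.erase z) (by omega) (by omega)
      exact ⟨_, isDeg_step hz h3 hπ hψ⟩

/-- the degree functional in terms of the push-forward -/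
lemma deg_eq (J1 : Job1) {A : Finset α} {z : α} (hz : z ∈ A) (hA : 3 ≤ A.card)
    {π : D A →ₗ[ℚ] D (A.erase z)} (hπ : ∀ (e : Finset α →₀ ℕ) (B : Finset α), B ∈ e.support → z ∈ B →
      B ⊆ A → 2 ≤ B.card → (∀ S ∈ e.support, S ⊆ A ∧ (B ⊆ S ∨ Disjoint B S)) →
      π (mon A e) = K (A.erase z) (B.erase z) (e B) *
        ∏ S ∈ e.support.erase B, x (A.erase z) (S.erase z) ^ e S)
    {ψ : D (A.erase z) →ₗ[ℚ] ℚ} (hψ : IsDeg (A.erase z) ψ) {φ : D A →ₗ[ℚ] ℚ} (hφ : IsDeg A φ)
    {e : Finset α →₀ ℕ} (he : dg e + 2 = A.card) : φ (mon A e) = - ψ (π (mon A e)) := by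
  rw [IsDeg.unique J1 (by omega) hφ (isDeg_step hz hA hπ hψ)]
  simp only [LinearMap.neg_apply, LinearMap.comp_apply]
  rw [proj_mon, if_pos (by omega)]

/-! ### The elements `K` -/

lemma mul_mem_span {A : Finset α} {P Q : (Finset α →₀ ℕ) → Prop} {y w : D A}
    (hy : y ∈ Submodule.span ℚ {y : D A | ∃ e, P e ∧ y = mon A e})
    (h : ∀ e, P e → w * mon A e ∈ Submodule.span ℚ {y : D A | ∃ e, Q e ∧ y = mon A e}) :
    w * y ∈ Submodule.span ℚ {y : D A | ∃ e, Q e ∧ y = mon A e} := by
  have h1 : Submodule.span ℚ {y : D A | ∃ e, P e ∧ y = mon A e} ≤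
      (Submodule.span ℚ {y : D A | ∃ e, Q e ∧ y = mon A e}).comap (LinearMap.mulLeft ℚ w) := by
    rw [Submodule.span_le]
    rintro y ⟨e, he, rfl⟩
    exact h e he
  exact h1 hy

lemma H_mul_mem {A T : Finset α} {P Q : (Finset α →₀ ℕ) → Prop}
    (hPQ : ∀ e U, T ⊂ U → P e → Q (Finsupp.single U 1 + e)) {y : D A}
    (hy : y ∈ Submodule.span ℚ {y : D A | ∃ e, P e ∧ y = mon A e}) :
    H A T * y ∈ Submodule.span ℚ {y : D A | ∃ e, Q e ∧ y = mon A e} := by
  refine mul_mem_span hy fun e he => ?_
  unfold H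
  rw [sum_mul]
  refine Submodule.sum_mem _ fun U hU => Submodule.subset_span ?_
  rw [mem_filter] at hU
  refine ⟨Finsupp.single U 1 + e, hPQ e U hU.2 he, ?_⟩
  rw [mon_add, mon_single, pow_one]

/-- the leading term of `K`, `T` with at least two elements -/
lemma K_lead {A T : Finset α} (hT : 2 ≤ T.card) (hTA : T ≠ A) : ∀ a : ℕ, 1 ≤ a →
    K A T (a + 1) + x A T ^ a ∈ Submodule.span ℚ {y : D A | ∃ g, (dg g = a ∧
      (∀ U, g U ≠ 0 → T ⊆ U) ∧ 1 ≤ g T ∧ g T < a) ∧ y = mon A g} := by
  intro a ha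
  induction a, ha using Nat.le_induction with
  | base =>
    have h1 : K A T 1 = if T.card = 1 then 1 else if T = A then -1 else 0 := rfl
    have h : K A T 2 = - H A T * K A T 1 - (if T.card = 1 then 0 else x A T ^ 1) := rfl
    rw [show 1 + 1 = 2 from rfl, h, h1, if_neg (by omega), if_neg hTA, if_neg (by omega)]
    have : - H A T * 0 - x A T ^ 1 + x A T ^ 1 = 0 := by ring
    rw [this]
    exact Submodule.zero_mem _
  | succ a ha ih =>
    have h : K A T (a + 2) = - H A T * K A T (a + 1) - (if T.card = 1 then 0 else x A T ^ (a + 1)) :=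
      rfl
    rw [show a + 1 + 1 = a + 2 from rfl, h, if_neg (by omega)]
    have h2 : - H A T * K A T (a + 1) - x A T ^ (a + 1) + x A T ^ (a + 1) =
        - (H A T * (K A T (a + 1) + x A T ^ a)) + H A T * mon A (Finsupp.single T a) := by
      rw [mon_single]
      ring
    rw [h2]
    refine Submodule.add_mem _ (Submodule.neg_mem _ (H_mul_mem ?_ ih)) ?_
    · rintro e U hU ⟨h3, h4, h5, h6⟩
      have hne : U ≠ T := hU.ne'
      have h7 : (Finsupp.single U 1 + e : Finset α →₀ ℕ) T = e T := by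
        rw [Finsupp.add_apply, Finsupp.single_eq_of_ne' hne, zero_add]
      refine ⟨by rw [dg_add, dg_single, h3, add_comm], ?_, by omega, by omega⟩
      intro V hV
      by_cases hVU : V = U
      · rw [hVU]
        exact hU.1
      · refine h4 V ?_
        rw [Finsupp.add_apply, Finsupp.single_eq_of_ne' (Ne.symm hVU), zero_add] at hV
        exact hV
    · refine H_mul_mem (P := fun e => e = Finsupp.single T a) ?_ (Submodule.subset_span ⟨_, rfl, rfl⟩)
      rintro e U hU rfl
      have hne : U ≠ T := hU.ne'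
      have h7 : (Finsupp.single U 1 + Finsupp.single T a : Finset α →₀ ℕ) T = a := by
        rw [Finsupp.add_apply, Finsupp.single_eq_of_ne' hne, zero_add, Finsupp.single_eq_same]
      refine ⟨by rw [dg_add, dg_single, dg_single, add_comm], ?_, by omega, by omega⟩
      intro V hV
      by_cases hVU : V = U
      · rw [hVU]
        exact hU.1
      · rw [Finsupp.add_apply, Finsupp.single_eq_of_ne' (Ne.symm hVU), zero_add] at hV
        by_cases hVT : V = T
        · rw [hVT]
        · rw [Finsupp.single_eq_of_ne' (Ne.symm hVT)] at hV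
          exact absurd rfl hV

/-- `K` is a combination of monomials in the sets containing `T` -/
lemma K_mem {A T : Finset α} (hT : 1 ≤ T.card) (hTA : T ≠ A) (a : ℕ) :
    K A T (a + 1) ∈ Submodule.span ℚ {y : D A | ∃ g, (dg g = a ∧
      (∀ U, g U ≠ 0 → T ⊆ U) ∧ (2 ≤ T.card → 1 ≤ g T)) ∧ y = mon A g} := by
  by_cases h2 : 2 ≤ T.card
  · rcases Nat.eq_zero_or_pos a with rfl | ha
    · have h1 : K A T 1 = if T.card = 1 then 1 else if T = A then -1 else 0 := rfl
      rw [zero_add, h1, if_neg (by omega), if_neg hTA]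
      exact Submodule.zero_mem _
    · have h3 := K_lead h2 hTA a ha
      have h4 : K A T (a + 1) = (K A T (a + 1) + x A T ^ a) - mon A (Finsupp.single T a) := by
        rw [mon_single]
        ring
      rw [h4]
      refine Submodule.sub_mem _ (Submodule.span_mono ?_ h3) (Submodule.subset_span ?_)
      · rintro y ⟨g, ⟨h5, h6, h7, -⟩, rfl⟩
        exact ⟨g, ⟨h5, h6, fun _ => h7⟩, rfl⟩
      · refine ⟨_, ⟨dg_single _ _, ?_, ?_⟩, rfl⟩
        · intro U hU
          by_cases hUT : U = T
          · rw [hUT]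
          · rw [Finsupp.single_eq_of_ne' (Ne.symm hUT)] at hU
            exact absurd rfl hU
        · intro _
          rw [Finsupp.single_eq_same]
          exact ha
  · have hc : T.card = 1 := by omega
    induction a with
    | zero =>
      have h1 : K A T 1 = if T.card = 1 then 1 else if T = A then -1 else 0 := rfl
      rw [zero_add, h1, if_pos hc, ← mon_zero A]
      exact Submodule.subset_span ⟨0, ⟨rfl, fun U hU => absurd rfl hU, fun h => absurd h h2⟩, rfl⟩
    | succ a ih =>
      have h : K A T (a + 2) = - H A T * K A T (a + 1) -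
        (if T.card = 1 then 0 else x A T ^ (a + 1)) := rfl
      have h9 : - H A T * K A T (a + 1) = - (H A T * K A T (a + 1)) := by ring
      rw [show a + 1 + 1 = a + 2 from rfl, h, if_pos hc, sub_zero, h9]
      refine Submodule.neg_mem _ (H_mul_mem ?_ ih)
      rintro e U hU ⟨h3, h4, -⟩
      refine ⟨by rw [dg_add, dg_single, h3, add_comm], ?_, fun h => absurd h h2⟩
      intro V hV
      by_cases hVU : V = U
      · rw [hVU]
        exact hU.1
      · refine h4 V ?_
        rw [Finsupp.add_apply, Finsupp.single_eq_of_ne' (Ne.symm hVU), zero_add] at hV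
        exact hV

end Pool.Agent.K7.H78.MO
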