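import Mathlib
import Pool.Agent.K7.H78.MO.Deg

set_option autoImplicit false
set_option linter.unusedSectionVars false

/-!
# Vanishing and non-vanishing of the degree of monomials
-/

open Finset

namespace Pool.Agent.K7.H78.MO

open Pool.Agent.K7.H68.MO

variable {α : Type} [DecidableEq α]

/-- the exponents after the push-forward -/
noncomputable def ex (e : Finset α →₀ ℕ) (B : Finset α) (z : α) : Finset α →₀ ℕ :=
  (e.erase B).mapDomain fun S => S.erase z

lemma push (J1 : Job1) (J2 : Job2) {A : Finset α} {e : Finset α →₀ ℕ} {B : Finset α} {z : α}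
    (hz : z ∈ B) (hBA : B ⊆ A) (hB2 : 2 ≤ B.card) (hB : B ∈ e.support) (hA : 3 ≤ A.card)
    (hmin : ∀ S ∈ e.support, S ⊆ A ∧ (B ⊆ S ∨ Disjoint B S))
    {ψ : D (A.erase z) →ₗ[ℚ] ℚ} (hψ : IsDeg (A.erase z) ψ) {φ : D A →ₗ[ℚ] ℚ} (hφ : IsDeg A φ)
    (he : dg e + 2 = A.card) :
    φ (mon A e) = - ψ (K (A.erase z) (B.erase z) (e B) * mon (A.erase z) (ex e B z)) := by
  obtain ⟨π, hπ⟩ := J2 α A z (hBA hz) hA
  rw [deg_eq J1 (hBA hz) hA hπ hψ hφ he, hπ e B hB hz hBA hB2 hmin]
  have h1 : mon (A.erase z) (ex e B z) =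
      ∏ S ∈ e.support.erase B, x (A.erase z) (S.erase z) ^ e S := by
    unfold ex
    rw [mon_mapDomain, Finsupp.prod, Finsupp.support_erase]
    refine prod_congr rfl fun S hS => ?_
    rw [Finsupp.erase_ne (ne_of_mem_erase hS)]
  rw [h1]

lemma span_zero {A : Finset α} {P : (Finset α →₀ ℕ) → Prop} {y : D A} {f : Finset α →₀ ℕ}
    {ψ : D A →ₗ[ℚ] ℚ} (h : ∀ g, P g → ψ (mon A (g + f)) = 0)
    (hy : y ∈ Submodule.span ℚ {y : D A | ∃ g, P g ∧ y = mon A g}) : ψ (y * mon A f) = 0 := by
  have h1 : Submodule.span ℚ {y : D A | ∃ g, P g ∧ y = mon A g} ≤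
      LinearMap.ker (ψ ∘ₗ LinearMap.mulRight ℚ (mon A f)) := by
    rw [Submodule.span_le]
    rintro y ⟨g, hg, rfl⟩
    show ψ (mon A g * mon A f) = 0
    rw [← mon_add]
    exact h g hg
  exact h1 hy

lemma erase_subset_iff' {S T : Finset α} {z : α} (hz : z ∈ S) : T.erase z ⊆ S.erase z ↔ T ⊆ S := by
  constructor
  · intro h t ht
    by_cases htz : t = z
    · rw [htz]
      exact hz
    · exact (mem_erase.1 (h (mem_erase.2 ⟨htz, ht⟩))).2
  · exact fun h => erase_subset_erase z h

lemma E_erase (e : Finset α →₀ ℕ) (B S : Finset α) :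
    E e S = E (e.erase B) S + if B ⊆ S then e B else 0 := by
  conv_lhs => rw [← Finsupp.erase_add_single B e]
  rw [E_add, E_single]

lemma dg_erase (e : Finset α →₀ ℕ) (B : Finset α) : dg e = dg (e.erase B) + e B := by
  conv_lhs => rw [← Finsupp.erase_add_single B e]
  rw [dg_add, dg_single]

lemma E_ex_mem (e : Finset α →₀ ℕ) (B : Finset α) {S : Finset α} {z : α} (hz : z ∈ S) :
    E (ex e B z) (S.erase z) = E (e.erase B) S := by
  unfold ex
  rw [E_mapDomain]
  unfold E Finsupp.sum
  refine sum_congr rfl fun T _ => ?_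
  simp only [erase_subset_iff' hz]

lemma ex_apply_ne {e : Finset α →₀ ℕ} {B S : Finset α} {z : α} (hS : e S ≠ 0) (hSB : S ≠ B) :
    ex e B z (S.erase z) ≠ 0 := by
  have h2 : S ∈ (e.erase B).support := by
    rw [Finsupp.support_erase, mem_erase]
    exact ⟨hSB, Finsupp.mem_support_iff.2 hS⟩
  have h3 : (fun S : Finset α => S.erase z) S ∈ (ex e B z).support := by
    have h1 : ex e B z = Finsupp.mapDomain (fun S => S.erase z) (e.erase B) := rfl
    have h4 : Finsupp.single S ((e.erase B) S) ≤ e.erase B := by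
      rw [Finsupp.single_le_iff]
    have h5 : ex e B z = Finsupp.mapDomain (fun S => S.erase z) (Finsupp.single S ((e.erase B) S)) +
        Finsupp.mapDomain (fun S => S.erase z) (e.erase B - Finsupp.single S ((e.erase B) S)) := by
      rw [h1, ← Finsupp.mapDomain_add, add_tsub_cancel_of_le h4]
    rw [Finsupp.mem_support_iff, h5, Finsupp.add_apply, Finsupp.mapDomain_single,
      Finsupp.single_eq_same]
    have h6 := Finsupp.mem_support_iff.1 h2
    omega
  exact Finsupp.mem_support_iff.1 h3

lemma ex_support {e : Finset α →₀ ℕ} {B U : Finset α} {z : α} (h : ex e B z U ≠ 0) :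
    ∃ V ∈ e.support, V ≠ B ∧ U = V.erase z := by
  have h1 : U ∈ (ex e B z).support := Finsupp.mem_support_iff.2 h
  have h2 := Finsupp.mapDomain_support h1
  rw [mem_image] at h2
  obtain ⟨V, hV, rfl⟩ := h2
  rw [Finsupp.support_erase, mem_erase] at hV
  exact ⟨V, hV.2, hV.1, rfl⟩

/-- a minimal member of the support inside `S` -/
lemma exists_min {e : Finset α →₀ ℕ} {S : Finset α} (hS : S ∈ e.support)
    (hnc : ∀ S ∈ e.support, ∀ T ∈ e.support, ¬ Cross S T) :
    ∃ B ∈ e.support, B ⊆ S ∧ (∀ T ∈ e.support, T ⊆ B → T = B) ∧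
      ∀ T ∈ e.support, B ⊆ T ∨ Disjoint B T := by
  obtain ⟨B, hB, hmin⟩ := exists_min_image {T ∈ e.support | T ⊆ S} card
    ⟨S, mem_filter.2 ⟨hS, Subset.refl _⟩⟩
  rw [mem_filter] at hB
  have h1 : ∀ T ∈ e.support, T ⊆ B → T = B := by
    intro T hT hTB
    exact eq_of_subset_of_card_le hTB (hmin T (mem_filter.2 ⟨hT, hTB.trans hB.2⟩))
  refine ⟨B, hB.1, hB.2, h1, fun T hT => ?_⟩
  by_contra hcon
  push Not at hcon
  refine hnc B hB.1 T hT ⟨hcon.1, fun h2 => ?_, hcon.2⟩
  exact hcon.1 (h1 T hT h2 ▸ Subset.refl _)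

/-- **Vanishing.** -/
theorem van (J1 : Job1) (J2 : Job2) : ∀ n : ℕ, ∀ A : Finset α, A.card = n → 2 ≤ A.card →
    ∀ φ : D A →ₗ[ℚ] ℚ, IsDeg A φ → ∀ (e : Finset α →₀ ℕ) (S : Finset α), e S ≠ 0 → S ≠ A →
      E e S + 1 < S.card → φ (mon A e) = 0 := by
  intro n
  induction n with
  | zero =>
    intro A hA h2
    omega
  | succ n ih =>
    intro A hAn hA2 φ hφ e S hS hSA hE
    by_cases hdeg : dg e + 2 = A.card
    swap
    · exact hφ.zero e hdeg
    by_cases hbad : ∃ T ∈ e.support, ¬ T ⊆ A ∨ T.card < 2
    · obtain ⟨T, hT, h1⟩ := hbad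
      rw [mon_eq_zero (Finsupp.mem_support_iff.1 hT) h1, map_zero]
    by_cases hcr : ∃ T ∈ e.support, ∃ U ∈ e.support, Cross T U
    · obtain ⟨T, hT, U, hU, h1⟩ := hcr
      rw [mon_eq_zero' (Finsupp.mem_support_iff.1 hT) (Finsupp.mem_support_iff.1 hU) h1, map_zero]
    push Not at hbad hcr
    have hSs : S ∈ e.support := Finsupp.mem_support_iff.2 hS
    obtain ⟨B, hB, hBS, hBmin, hBT⟩ := exists_min hSs hcr
    have hSA' := (hbad S hSs).1
    have hc1 : S.card < A.card := card_lt_card (Finset.ssubset_iff_subset_ne.2 ⟨hSA', hSA⟩)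
    have hB2 := (hbad B hB).2
    have hBA : B ⊆ A := hBS.trans hSA'
    obtain ⟨z, hz⟩ : B.Nonempty := card_pos.1 (by omega)
    have hc2 := card_le_card hBS
    have hcz : (A.erase z).card = A.card - 1 := card_erase_of_mem (hBA hz)
    have hBz : (B.erase z).card = B.card - 1 := card_erase_of_mem hz
    have hSz : (S.erase z).card = S.card - 1 := card_erase_of_mem (hBS hz)
    obtain ⟨ψ, hψ⟩ := exists_deg J2 (A.erase z).card (A.erase z) rfl (by omega)
    rw [push J1 J2 hz hBA hB2 hB (by omega) (fun T hT => ⟨(hbad T hT).1, hBT T hT⟩) hψ hφ hdeg,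
      neg_eq_zero]
    obtain ⟨a, ha⟩ : ∃ a, e B = a + 1 :=
      ⟨e B - 1, by have := Finsupp.mem_support_iff.1 hB; omega⟩
    have hne : B.erase z ≠ A.erase z := by
      intro h
      have h1 := congrArg card h
      omega
    rw [ha]
    refine span_zero ?_ (K_mem (by omega) hne a)
    rintro g ⟨h1, h2, h3⟩
    refine ih (A.erase z) (by omega) (by omega) ψ hψ (g + ex e B z) (S.erase z) ?_ ?_ ?_
    · rw [Finsupp.add_apply]
      by_cases hSB : S = B
      · have h4 : 2 ≤ (B.erase z).card := by
          by_contra hcon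
          have h5 : E e S = E (e.erase B) S + e B := by
            rw [E_erase e B S, if_pos hBS]
          have h6 : S.card = B.card := by rw [hSB]
          omega
        have h5 := h3 h4
        rw [hSB]
        omega
      · have := ex_apply_ne (z := z) hS hSB
        omega
    · intro h
      have h1 := congrArg card h
      omega
    · have h4 : E e S = E (e.erase B) S + e B := by
        rw [E_erase e B S, if_pos hBS]
      rw [E_add, E_ex_mem e B (hBS hz)]
      have h5 := E_le_dg g (S.erase z)
      omega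

/-- the exponents of the monomials with nonzero degree -/
structure Tight (A : Finset α) (e : Finset α →₀ ℕ) : Prop where
  sub : ∀ S, e S ≠ 0 → S ⊆ A ∧ 2 ≤ S.card
  nc : ∀ S, e S ≠ 0 → ∀ T, e T ≠ 0 → ¬ Cross S T
  eq : ∀ S, e S ≠ 0 → S ≠ A → E e S + 1 = S.card
  dg : dg e + 2 = A.card

lemma not_cross_erase {S T : Finset α} (z : α) (h : ¬ Cross S T) :
    ¬ Cross (S.erase z) (T.erase z) := by
  intro h'
  apply h
  refine ⟨fun h1 => h'.1 (erase_subset_erase z h1), fun h1 => h'.2.1 (erase_subset_erase z h1),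
    fun h1 => h'.2.2 ?_⟩
  exact h1.mono (erase_subset _ _) (erase_subset _ _)

lemma not_cross_of_subset {S T : Finset α} (h : S ⊆ T) : ¬ Cross S T := fun h' => h'.1 h

lemma not_cross_of_subset' {S T : Finset α} (h : T ⊆ S) : ¬ Cross S T := fun h' => h'.2.1 h

lemma not_cross_of_disjoint {S T : Finset α} (h : Disjoint S T) : ¬ Cross S T := fun h' => h'.2.2 h

lemma Tight.step {A : Finset α} {e : Finset α →₀ ℕ} (h : Tight A e) {B : Finset α} (hB : B ∈ e.support)
    (hBA : B ≠ A) (hBmin : ∀ T ∈ e.support, T ⊆ B → T = B)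
    (hBT : ∀ T ∈ e.support, B ⊆ T ∨ Disjoint B T) {z : α} (hz : z ∈ B) (hA : 3 ≤ A.card) :
    e B + 1 = B.card ∧
      Tight (A.erase z) (Finsupp.single (B.erase z) (e B - 1) + ex e B z) := by
  have hB0 := Finsupp.mem_support_iff.1 hB
  have hB1 := h.sub B hB0
  have hcz : (A.erase z).card = A.card - 1 := card_erase_of_mem (hB1.1 hz)
  have hBz : (B.erase z).card = B.card - 1 := card_erase_of_mem hz
  have hEB : E (e.erase B) B = 0 := by
    unfold E Finsupp.sum
    refine sum_eq_zero fun T hT => ?_
    rw [Finsupp.support_erase, mem_erase] at hT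
    show (if T ⊆ B then (e.erase B) T else 0) = 0
    rw [if_neg]
    intro h1
    exact hT.1 (hBmin T hT.2 h1)
  have heB : e B + 1 = B.card := by
    have h1 := h.eq B hB0 hBA
    rw [E_erase e B B, if_pos (Subset.refl _), hEB] at h1
    omega
  refine ⟨heB, ?_⟩
  -- the members of the new support
  have hsupp : ∀ U, (Finsupp.single (B.erase z) (e B - 1) + ex e B z : Finset α →₀ ℕ) U ≠ 0 →
      (U = B.erase z ∧ e B - 1 ≠ 0) ∨ ∃ V ∈ e.support, V ≠ B ∧ U = V.erase z := by
    intro U hU
    rw [Finsupp.add_apply] at hU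
    by_cases h1 : ex e B z U = 0
    · left
      by_cases h2 : U = B.erase z
      · refine ⟨h2, ?_⟩
        rw [h2, Finsupp.single_eq_same] at hU
        rw [h2] at h1
        omega
      · rw [Finsupp.single_eq_of_ne' (Ne.symm h2)] at hU
        omega
    · right
      exact ex_support h1
  have hout : ∀ V ∈ e.support, Disjoint B V → V.erase z = V := by
    intro V _ hd
    exact erase_eq_of_notMem fun hzV => (disjoint_left.1 hd) hz hzV
  have hT0 : (B.erase z).Nonempty := card_pos.1 (by omega)
  refine ⟨?_, ?_, ?_, ?_⟩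
  · intro U hU
    rcases hsupp U hU with ⟨rfl, h1⟩ | ⟨V, hV, hVB, rfl⟩
    · exact ⟨erase_subset_erase z hB1.1, by omega⟩
    · have hV1 := h.sub V (Finsupp.mem_support_iff.1 hV)
      refine ⟨erase_subset_erase z hV1.1, ?_⟩
      rcases hBT V hV with h2 | h2
      · have h3 := card_lt_card (Finset.ssubset_iff_subset_ne.2 ⟨h2, Ne.symm hVB⟩)
        have h4 : (V.erase z).card = V.card - 1 := card_erase_of_mem (h2 hz)
        omega
      · rw [hout V hV h2]
        exact hV1.2
  · have key : ∀ V ∈ e.support, V ≠ B → ¬ Cross (B.erase z) (V.erase z) := by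
      intro V hV hVB
      rcases hBT V hV with h2 | h2
      · exact not_cross_of_subset (erase_subset_erase z h2)
      · exact not_cross_of_disjoint (h2.mono (erase_subset _ _) (erase_subset _ _))
    intro U hU W hW
    rcases hsupp U hU with ⟨rfl, h1⟩ | ⟨V, hV, hVB, rfl⟩
    · rcases hsupp W hW with ⟨rfl, -⟩ | ⟨V', hV', hVB', rfl⟩
      · exact not_cross_of_subset (Subset.refl _)
      · exact key V' hV' hVB'
    · rcases hsupp W hW with ⟨rfl, -⟩ | ⟨V', hV', hVB', rfl⟩
      · intro hc
        exact key V hV hVB ⟨hc.2.1, hc.1, fun hd => hc.2.2 hd.symm⟩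
      · exact not_cross_erase z
          (h.nc V (Finsupp.mem_support_iff.1 hV) V' (Finsupp.mem_support_iff.1 hV'))
  · intro U hU hUA
    rw [E_add, E_single]
    rcases hsupp U hU with ⟨rfl, h1⟩ | ⟨V, hV, hVB, rfl⟩
    · rw [if_pos (Subset.refl _), E_ex_mem e B hz, hEB]
      omega
    · have hV0 := Finsupp.mem_support_iff.1 hV
      rcases hBT V hV with h2 | h2
      · have hVA : V ≠ A := by
          rintro rfl
          exact hUA rfl
        have h3 := h.eq V hV0 hVA
        rw [E_erase e B V, if_pos h2] at h3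
        have h4 : (V.erase z).card = V.card - 1 := card_erase_of_mem (h2 hz)
        rw [if_pos (erase_subset_erase z h2), E_ex_mem e B (h2 hz)]
        omega
      · have hVz := hout V hV h2
        have hVA : V ≠ A := by
          rintro rfl
          exact (disjoint_left.1 h2) hz (hB1.1 hz)
        have h3 := h.eq V hV0 hVA
        have hnot : ¬ B.erase z ⊆ V := by
          intro hs
          obtain ⟨t, ht⟩ := hT0
          exact (disjoint_left.1 h2) (mem_of_mem_erase ht) (hs ht)
        have hnot' : ¬ B ⊆ V := fun hs => hnot ((erase_subset _ _).trans hs)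
        rw [E_erase e B V, if_neg hnot', add_zero] at h3
        rw [hVz, if_neg hnot, zero_add, ← h3]
        congr 1
        unfold ex
        rw [E_mapDomain]
        unfold E Finsupp.sum
        refine sum_congr rfl fun T hT => ?_
        rw [Finsupp.support_erase, mem_erase] at hT
        have : T.erase z ⊆ V ↔ T ⊆ V := by
          constructor
          · intro hs
            by_cases hzT : z ∈ T
            · exfalso
              rcases hBT T hT.2 with h5 | h5
              · exact hnot ((erase_subset_erase z h5).trans hs)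
              · exact (disjoint_left.1 h5) hz hzT
            · rwa [erase_eq_of_notMem hzT] at hs
          · exact fun hs => (erase_subset _ _).trans hs
        simp only [this]
  · rw [dg_add, dg_single]
    have h1 : MO.dg (ex e B z) = MO.dg (e.erase B) := dg_mapDomain _ _
    have h2 := dg_erase e B
    have h3 := h.dg
    rw [h1]
    omega

/-- **Non-vanishing.** -/
theorem nonvan (J1 : Job1) (J2 : Job2) : ∀ n : ℕ, ∀ A : Finset α, A.card = n → 2 ≤ A.card →
    ∀ φ : D A →ₗ[ℚ] ℚ, IsDeg A φ → ∀ e : Finset α →₀ ℕ, Tight A e → φ (mon A e) ≠ 0 := by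
  intro n
  induction n with
  | zero =>
    intro A hA h2
    omega
  | succ n ih =>
    intro A hAn hA2 φ hφ e he
    by_cases hs : ∃ S ∈ e.support, S ≠ A
    · obtain ⟨S, hS, hSA⟩ := hs
      have hcr : ∀ S ∈ e.support, ∀ T ∈ e.support, ¬ Cross S T := fun S hS T hT =>
        he.nc S (Finsupp.mem_support_iff.1 hS) T (Finsupp.mem_support_iff.1 hT)
      obtain ⟨B, hB, hBS, hBmin, hBT⟩ := exists_min hS hcr
      have hS1 := he.sub S (Finsupp.mem_support_iff.1 hS)
      have hB1 := he.sub B (Finsupp.mem_support_iff.1 hB)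
      have hc1 : S.card < A.card := card_lt_card (Finset.ssubset_iff_subset_ne.2 ⟨hS1.1, hSA⟩)
      have hBA : B ≠ A := by
        intro h
        rw [h] at hBS
        exact hSA (Subset.antisymm hS1.1 hBS)
      obtain ⟨z, hz⟩ : B.Nonempty := card_pos.1 (by omega)
      have hc2 := card_le_card hBS
      have hcz : (A.erase z).card = A.card - 1 := card_erase_of_mem (hB1.1 hz)
      have hBz : (B.erase z).card = B.card - 1 := card_erase_of_mem hz
      obtain ⟨ψ, hψ⟩ := exists_deg J2 (A.erase z).card (A.erase z) rfl (by omega)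
      obtain ⟨h1, h2⟩ := he.step hB hBA hBmin hBT hz (by omega)
      have h3 := ih (A.erase z) (by omega) (by omega) ψ hψ _ h2
      rw [push J1 J2 hz hB1.1 hB1.2 hB (by omega)
        (fun T hT => ⟨(he.sub T (Finsupp.mem_support_iff.1 hT)).1, hBT T hT⟩) hψ hφ he.dg]
      rw [neg_ne_zero]
      rw [mon_add, mon_single] at h3
      rcases Nat.lt_or_ge 2 B.card with h4 | h4
      · obtain ⟨a, ha⟩ : ∃ a, e B = a + 1 := ⟨e B - 1, by omega⟩
        have hne : B.erase z ≠ A.erase z := by
          intro h
          have h1 := congrArg card h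
          omega
        have h5 := K_lead (A := A.erase z) (T := B.erase z) (by omega) hne a (by omega)
        have h6 : ψ ((K (A.erase z) (B.erase z) (a + 1) + x (A.erase z) (B.erase z) ^ a) *
            mon (A.erase z) (ex e B z)) = 0 := by
          refine span_zero ?_ h5
          rintro g ⟨h7, h8, h9, h10⟩
          refine van J1 J2 (A.erase z).card (A.erase z) rfl (by omega) ψ hψ _ (B.erase z) ?_ hne ?_
          · rw [Finsupp.add_apply]
            omega
          · have hEB : E (e.erase B) B = 0 := by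
              unfold E Finsupp.sum
              refine sum_eq_zero fun T hT => ?_
              rw [Finsupp.support_erase, mem_erase] at hT
              show (if T ⊆ B then (e.erase B) T else 0) = 0
              rw [if_neg]
              intro h1
              exact hT.1 (hBmin T hT.2 h1)
            have hEg : E g (B.erase z) = g (B.erase z) := by
              rw [E_eq, sum_eq_single (B.erase z)]
              · intro T hT hTB
                by_contra hcon
                exact hTB (Subset.antisymm (mem_powerset.1 hT) (h8 T hcon))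
              · intro h11
                exact absurd (mem_powerset.2 (Subset.refl _)) h11
            rw [E_add, E_ex_mem e B hz, hEB, hEg]
            omega
        rw [add_mul, map_add] at h6
        have h7 : e B - 1 = a := by omega
        rw [h7] at h3
        rw [ha]
        intro h8
        rw [h8, zero_add] at h6
        exact h3 h6
      · have h5 : e B = 1 := by omega
        have h6 : K (A.erase z) (B.erase z) 1 = 1 := by
          have h : K (A.erase z) (B.erase z) 1 =
            if (B.erase z).card = 1 then 1 else if B.erase z = A.erase z then -1 else 0 := rfl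
          rw [h, if_pos (by omega)]
        rw [h5, Nat.sub_self, pow_zero] at h3
        rw [h5, h6]
        exact h3
    · push Not at hs
      have h1 : e = Finsupp.single A (e A) := by
        rw [← Finsupp.support_subset_singleton]
        intro S hS
        rw [mem_singleton]
        exact hs S hS
      have h2 := he.dg
      have h3 : MO.dg e = e A := by
        conv_lhs => rw [h1]
        rw [dg_single]
      have h4 : e A = A.card - 2 := by omega
      rw [h1, h4, mon_single, hφ.one]
      exact one_ne_zero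

end Pool.Agent.K7.H78.MO
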